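import Pool.Agent.Lib.MP_00be1d_pr.Canonical

/-!
# At least four favorite one-side sites infinitely often

For simple symmetric random walk on `ℤ`, almost surely there are infinitely many times `n` at which
at least four sites are favorite one-side sites.
-/

open MeasureTheory Filter ProbabilityTheory
open Pool.Agent.Lib.MP_00be1d_pr

namespace Pool.Agent.Results.MP_00be1d_pr.FourFavorites

/-- Let `X 0, X 1, …` be independent random variables on an arbitrary probability space, each equal
to `1` or `-1` with probability `1/2`, and `S_m = ∑_{k < m} X k`. Almost surely, the set `K*(n)` of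
the favorite one-side sites of `S` at time `n` has at least four elements for infinitely
many `n`. -/
theorem result {Ω : Type*} [MeasurableSpace Ω] (Pr : Measure Ω) [IsProbabilityMeasure Pr]
    (X : ℕ → Ω → ℤ) (hX : ∀ k, Measurable (X k)) (hindep : iIndepFun X Pr)
    (hup : ∀ k, Pr {ω | X k ω = 1} = 1 / 2) (hdown : ∀ k, Pr {ω | X k ω = -1} = 1 / 2) :
    ∀ᵐ ω ∂Pr, ∃ᶠ n in atTop,
      4 ≤ (favoriteSites (fun m => ∑ k ∈ Finset.range m, X k ω) n).ncard :=
  ae_frequently_ncard_general Pr X hX hindep hup hdown

end Pool.Agent.Results.MP_00be1d_pr.FourFavorites
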